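import Pool.Agent.Helper638.LightB.P_coreDense
import Pool.Agent.Helper638.LightB.P_memline
import Pool.Agent.Helper638.LightB.P_reflLaw
import Pool.Agent.Helper638.LightB.P_physHit
import Pool.Agent.Helper638.LightB.P_physE
import Pool.Agent.Helper638.LightB.P_physX
import Pool.Agent.Helper638.LightB.P_physXE
import Pool.Agent.Helper638.LightB.P_supp0
import Pool.Agent.Helper638.LightB.P_sep0
import Pool.Agent.Helper638.LightB.P_mkCfg

set_option autoImplicit false

open MeasureTheory Set Filter Topology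

namespace Pool.Agent.Results.MP_379466_co.PositiveCurvature

open Pool.LightB

/-- The Euclidean plane. -/
abbrev E2 := EuclideanSpace ℝ (Fin 2)

/-- The unit vector with angle `φ`. -/
noncomputable def vv (φ : ℝ) : E2 := !₂[Real.cos φ, Real.sin φ]

/-- The support function of `K`, as a function of the angle of the outer normal. -/
noncomputable def suppFn (K : Set E2) (φ : ℝ) : ℝ := sSup ((fun x : E2 => inner ℝ x (vv φ)) '' K)

/-- `K` is a convex body of class `C³` with everywhere positive curvature (class `C³₊`): a compact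
convex set with nonempty interior whose support function `h` is of class `C³` and has a positive
radius of curvature `h + h''` at every normal angle. -/
def SmoothPosCurved (K : Set E2) : Prop :=
  Convex ℝ K ∧ IsCompact K ∧ (interior K).Nonempty ∧ ContDiff ℝ 3 (suppFn K) ∧
    ∀ φ, 0 < suppFn K φ + deriv (deriv (suppFn K)) φ

/-- `ν` is an outward unit normal of the convex body `K` at its (boundary) point `q`. -/
def IsOuterNormal (K : Set E2) (q ν : E2) : Prop :=
  q ∈ K ∧ ‖ν‖ = 1 ∧ ∀ z ∈ K, inner ℝ (z - q) ν ≤ 0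

/-- The light path which leaves `q` in the direction `d` among the mirrors `K i` makes finitely
many reflections, all of them transversal, touches the mirrors nowhere else, and reaches
infinity. -/
inductive Escapes {ι : Type*} (K : ι → Set E2) : E2 → E2 → Prop
  | free (q d : E2) (h : ∀ t : ℝ, 0 < t → ∀ j, q + t • d ∉ K j) : Escapes K q d
  | refl (q d : E2) (t : ℝ) (i : ι) (ν : E2) (ht : 0 < t)
      (h : ∀ s : ℝ, 0 < s → s < t → ∀ j, q + s • d ∉ K j)
      (hν : IsOuterNormal (K i) (q + t • d) ν) (hd : inner ℝ d ν < 0)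
      (hn : Escapes K (q + t • d) (d - (2 * inner ℝ d ν) • ν)) : Escapes K q d

theorem inner_two (x y : E2) : inner ℝ x y = x 0 * y 0 + x 1 * y 1 := by
  rw [PiLp.inner_apply, Fin.sum_univ_two]
  simp only [RCLike.inner_apply, conj_trivial]
  ring

noncomputable def pt (q : ℝ × ℝ) : E2 := !₂[q.1, q.2]

theorem pt_zero (q : ℝ × ℝ) : pt q 0 = q.1 := by simp [pt]
theorem pt_one (q : ℝ × ℝ) : pt q 1 = q.2 := by simp [pt]
theorem vv_zero (θ : ℝ) : vv θ 0 = Real.cos θ := by simp [vv]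
theorem vv_one (θ : ℝ) : vv θ 1 = Real.sin θ := by simp [vv]

theorem ext_two {x y : E2} (h0 : x 0 = y 0) (h1 : x 1 = y 1) : x = y := by
  ext i
  fin_cases i
  · exact h0
  · exact h1

theorem vv_norm (θ : ℝ) : ‖vv θ‖ = 1 := by
  have : ‖vv θ‖ ^ 2 = 1 := by
    rw [EuclideanSpace.norm_sq_eq, Fin.sum_univ_two, Real.norm_eq_abs, Real.norm_eq_abs,
      sq_abs, sq_abs, vv_zero, vv_one]
    exact Real.cos_sq_add_sin_sq θ
  have h0 := norm_nonneg (vv θ)
  nlinarith

theorem vv_cont : Continuous vv := by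
  unfold vv
  refine (PiLp.continuous_toLp 2 _).comp ?_
  rw [continuous_pi_iff]
  intro i
  fin_cases i
  · exact Real.continuous_cos
  · exact Real.continuous_sin

theorem inner_vv (x : E2) (φ : ℝ) : inner ℝ x (vv φ) = x 0 * Real.cos φ + x 1 * Real.sin φ := by
  rw [inner_two, vv_zero, vv_one]

noncomputable def KK {n : ℕ} (C : Cfg n) : Fin n → Set E2 :=
  fun i => {x | ∀ ω, x 0 * Real.cos ω + x 1 * Real.sin ω ≤ C.H i ω}

theorem mem_KK {n : ℕ} (C : Cfg n) (q : ℝ × ℝ) (k : Fin n) :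
    pt q ∈ KK C k ↔ q ∈ Bod C k := by
  simp only [KK, Bod, mem_setOf_eq, pt_zero, pt_one]

theorem pt_lp (θ b s t : ℝ) : pt (lp θ b s) + t • vv θ = pt (lp θ b (s + t)) := by
  apply ext_two
  · simp only [PiLp.add_apply, PiLp.smul_apply, smul_eq_mul, pt_zero, vv_zero, Pool.LightB.lp]
    ring
  · simp only [PiLp.add_apply, PiLp.smul_apply, smul_eq_mul, pt_one, vv_one, Pool.LightB.lp]
    ring

theorem esc_step {n : ℕ} (C : Cfg n) (j : Fin n) (θ b s₀ : ℝ) (hp : (θ, b) ∈ C.U j)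
    (hs : s₀ < C.sm j θ b)
    (hf : ∀ k, ∀ t, s₀ < t → t < C.sm j θ b → lp θ b t ∉ Bod C k)
    (he : Escapes (KK C) (pt (lp (C.Tj j (θ, b)).1 (C.Tj j (θ, b)).2
      (C.sp j (C.Tj j (θ, b)).1 (C.Tj j (θ, b)).2))) (vv (C.Tj j (θ, b)).1)) :
    Escapes (KK C) (pt (lp θ b s₀)) (vv θ) := by
  obtain ⟨h1, h2, h3, h4, h5⟩ := reflLaw C j θ b hp (C.Tj j (θ, b)).1 (C.Tj j (θ, b)).2
    ((C.Tj j (θ, b)).1 + C.asn j (C.Tj j (θ, b)).1 (C.Tj j (θ, b)).2) rfl rfl
  obtain ⟨φ, hφ⟩ : ∃ φ, φ = (C.Tj j (θ, b)).1 + C.asn j (C.Tj j (θ, b)).1 (C.Tj j (θ, b)).2 :=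
    ⟨_, rfl⟩
  rw [← hφ] at h2 h3 h4 h5
  have hT : C.Tch j θ b := ⟨hp.1.le, hp.2.le⟩
  have hin : inner ℝ (vv θ) (vv φ) = Real.cos θ * Real.cos φ + Real.sin θ * Real.sin φ := by
    rw [inner_vv, vv_zero, vv_one]
  have hq : pt (lp θ b s₀) + (C.sm j θ b - s₀) • vv θ = pt (lp θ b (C.sm j θ b)) := by
    rw [pt_lp]; congr 2; ring
  refine Escapes.refl (pt (lp θ b s₀)) (vv θ) (C.sm j θ b - s₀) j (vv φ) (by linarith) ?_ ?_ ?_ ?_
  · intro s hs0 hs1 k
    rw [pt_lp, mem_KK]
    exact hf k _ (by linarith) (by linarith)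
  · rw [hq]
    refine ⟨?_, vv_norm φ, ?_⟩
    · rw [mem_KK, memline]
      exact ⟨hT, le_rfl, (onb C j hT).2.2.1⟩
    · intro z hz
      have hz' := hz φ
      rw [inner_sub_left, inner_vv, inner_vv, pt_zero, pt_one, h2]
      linarith
  · rw [hin]; exact h5
  · rw [hq, h1]
    have : vv θ - (2 * inner ℝ (vv θ) (vv φ)) • vv φ = vv (C.Tj j (θ, b)).1 := by
      rw [hin]
      apply ext_two
      · simp only [PiLp.sub_apply, PiLp.smul_apply, smul_eq_mul, vv_zero]
        rw [h3]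
      · simp only [PiLp.sub_apply, PiLp.smul_apply, smul_eq_mul, vv_one]
        rw [h4]
    rw [this]
    exact he

theorem esc_state {n : ℕ} (C : Cfg n) (m : ℕ) : ∀ (i : Fin n) (θ b : ℝ),
    ((i, θ, b) : St n) ∈ C.Om m → (C.T^[m]) ((i, θ, b) : St n) ∈ C.E0 →
    Escapes (KK C) (pt (lp θ b (C.sp i θ b))) (vv θ) := by
  induction m with
  | zero =>
    intro i θ b _ hE
    have hE' : ((i, θ, b) : St n) ∈ C.E0 := hE
    refine Escapes.free _ _ ?_
    intro t ht k
    rw [pt_lp, mem_KK]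
    exact physE C hE' k _ (by linarith)
  | succ m ih =>
    intro i θ b hl hE
    obtain ⟨hM, ⟨j, hj⟩, hT⟩ := hl
    have hj' : C.Hits i j θ b := hj
    have hM' : (θ, b) ∈ C.U i := hM
    rw [Function.iterate_succ_apply] at hE
    rw [T_of_hits C hj'] at hE hT
    obtain ⟨h1, h2⟩ := physHit C hM' hj'
    exact esc_step C j θ b (C.sp i θ b) hj'.2.2.1 h1 h2 (ih j _ _ hT hE)

theorem esc_core {n : ℕ} (C : Cfg n) (x : ℝ × ℝ) (hx : OutX C x) (θa θb : ℝ) (hab : θa < θb) :
    ∃ θ ∈ Ioo θa θb, Escapes (KK C) (pt x) (vv θ) := by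
  obtain ⟨θ, hθ, h⟩ := coreDense C x hx θa θb hab
  refine ⟨θ, hθ, ?_⟩
  rcases h with h | ⟨j, hj, m, hm, hE⟩
  · obtain ⟨h1, h2⟩ := physXE C x hx h
    rw [← h1]
    refine Escapes.free _ _ ?_
    intro t ht k
    rw [pt_lp, mem_KK]
    exact h2 k _ (by linarith)
  · obtain ⟨h1, h2, h3⟩ := physX C x hx hj
    have h4 := esc_step C j θ (bx x θ) (sx x θ) hj.1 h2
      (fun k t ht hts => h3 k t ht.le hts) (esc_state C m j _ _ hm hE)
    rwa [h1] at h4

theorem exists_angle (x y : ℝ) (h : x ^ 2 + y ^ 2 = 1) :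
    ∃ θ : ℝ, x = Real.cos θ ∧ y = Real.sin θ := by
  have hn : ‖(⟨x, y⟩ : ℂ)‖ = 1 := by
    have : ‖(⟨x, y⟩ : ℂ)‖ ^ 2 = 1 := by
      rw [← Complex.normSq_eq_norm_sq, Complex.normSq_apply]
      simp only
      nlinarith
    have h0 := norm_nonneg (⟨x, y⟩ : ℂ)
    nlinarith
  refine ⟨Complex.arg ⟨x, y⟩, ?_, ?_⟩
  · have := Complex.norm_mul_cos_arg (⟨x, y⟩ : ℂ)
    rw [hn, one_mul] at this
    exact this.symm
  · have := Complex.norm_mul_sin_arg (⟨x, y⟩ : ℂ)
    rw [hn, one_mul] at this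
    exact this.symm

theorem suppFn_ge {K : Set E2} (hK : IsCompact K) (φ : ℝ) {x : E2} (hx : x ∈ K) :
    inner ℝ x (vv φ) ≤ suppFn K φ := by
  apply le_csSup
  · exact (hK.image (by fun_prop)).bddAbove
  · exact ⟨x, hx, rfl⟩

theorem suppFn_per (K : Set E2) (φ : ℝ) : suppFn K (φ + 2 * Real.pi) = suppFn K φ := by
  have : vv (φ + 2 * Real.pi) = vv φ := by
    apply ext_two
    · rw [vv_zero, vv_zero, Real.cos_add_two_pi]
    · rw [vv_one, vv_one, Real.sin_add_two_pi]
  unfold suppFn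
  rw [this]

/-- a compact convex set is the intersection of its supporting half planes -/
theorem eq_inter {K : Set E2} (hc : Convex ℝ K) (hK : IsCompact K) (hne : K.Nonempty) :
    K = {x : E2 | ∀ ω, x 0 * Real.cos ω + x 1 * Real.sin ω ≤ suppFn K ω} := by
  apply Subset.antisymm
  · intro x hx ω
    rw [← inner_vv]
    exact suppFn_ge hK ω hx
  · intro x hx
    by_contra hxK
    obtain ⟨f, u, hf1, hf2⟩ := geometric_hahn_banach_closed_point hc hK.isClosed hxK
    obtain ⟨w, hw⟩ : ∃ w : E2, ∀ y, f y = inner ℝ y w := by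
      refine ⟨(InnerProductSpace.toDual ℝ E2).symm f, fun y => ?_⟩
      rw [real_inner_comm, InnerProductSpace.toDual_symm_apply]
    obtain ⟨a, ha⟩ := hne
    have hw0 : w ≠ 0 := by
      rintro rfl
      have h1 := hf1 a ha
      rw [hw, inner_zero_right] at h1 hf2
      linarith
    have hn : 0 < ‖w‖ := norm_pos_iff.2 hw0
    have hsq : w 0 ^ 2 + w 1 ^ 2 = ‖w‖ ^ 2 := by
      rw [EuclideanSpace.norm_sq_eq, Fin.sum_univ_two, Real.norm_eq_abs, Real.norm_eq_abs,
        sq_abs, sq_abs]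
    obtain ⟨ω, h0, h1⟩ := exists_angle (w 0 / ‖w‖) (w 1 / ‖w‖) (by
      rw [div_pow, div_pow, ← add_div, hsq, div_self (by positivity)])
    have hwv : w = ‖w‖ • vv ω := by
      apply ext_two
      · simp only [PiLp.smul_apply, smul_eq_mul, vv_zero]
        rw [← h0]; field_simp
      · simp only [PiLp.smul_apply, smul_eq_mul, vv_one]
        rw [← h1]; field_simp
    have hfv : ∀ y, f y = ‖w‖ * inner ℝ y (vv ω) := by
      intro y
      rw [hw]
      conv_lhs => rw [hwv]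
      rw [inner_smul_right]
    have h2 : suppFn K ω ≤ u / ‖w‖ := by
      refine csSup_le (Set.Nonempty.image _ ⟨a, ha⟩) ?_
      rintro _ ⟨y, hy, rfl⟩
      have h3 := hf1 y hy
      rw [hfv] at h3
      rw [le_div_iff₀ hn]
      show inner ℝ y (vv ω) * ‖w‖ ≤ u
      linarith
    have h4 := hx ω
    rw [← inner_vv] at h4
    rw [hfv] at hf2
    have h5 : u / ‖w‖ < inner ℝ x (vv ω) := by
      rw [div_lt_iff₀ hn]; linarith
    linarith

/-- **Main result.** Let `K i`, `i < n`, be pairwise disjoint convex bodies of class `C³` with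
everywhere positive curvature and let `p` be a point outside of them.  Then the directions whose
light path from `p` reaches infinity (after finitely many transversal reflections and without
tangencies) are dense in the unit circle. -/
theorem result (n : ℕ) (K : Fin n → Set E2) (hK : ∀ i, SmoothPosCurved (K i))
    (hdisj : ∀ i j, i ≠ j → Disjoint (K i) (K j)) (p : E2) (hp : ∀ i, p ∉ K i) :
    Dense {u : Metric.sphere (0 : E2) 1 | Escapes K p (u : E2)} := by
  have hne : ∀ i, (K i).Nonempty := fun i => (hK i).2.2.1.mono interior_subset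
  have hE : ∀ i, K i = {x : E2 | ∀ ω, x 0 * Real.cos ω + x 1 * Real.sin ω ≤ suppFn (K i) ω} :=
    fun i => eq_inter (hK i).1 (hK i).2.1 (hne i)
  have hs : ∀ i, ∀ φ ω, suppFn (K i) φ * Real.cos (ω - φ) +
      deriv (suppFn (K i)) φ * Real.sin (ω - φ) ≤ suppFn (K i) ω := fun i =>
    supp0 (suppFn (K i)) (hK i).2.2.2.1 (suppFn_per (K i)) (hK i).2.2.2.2
  obtain ⟨C, hC⟩ := mkCfg (fun i => suppFn (K i)) (fun i => (hK i).2.2.2.1)
    (fun i => suppFn_per (K i)) (fun i => (hK i).2.2.2.2) (by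
      intro i k hik
      refine sep0 (suppFn (K i)) (suppFn (K k)) (hK i).2.2.2.1.continuous
        (hK k).2.2.2.1.continuous (hs i) (hs k) ?_
      rw [← hE i, ← hE k]
      exact hdisj i k hik)
  have hKK : K = KK C := by
    funext i
    rw [hE i]
    simp only [KK, hC]
  have hx : OutX C (p 0, p 1) := by
    intro k
    have h1 := hp k
    rw [hE k] at h1
    simp only [mem_setOf_eq, not_forall, not_le] at h1
    obtain ⟨ω, hω⟩ := h1
    exact ⟨ω, by rw [hC]; exact hω⟩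
  rw [hKK]
  have hpp : pt (p 0, p 1) = p := ext_two (pt_zero _) (pt_one _)
  rw [dense_iff_inter_open]
  rintro U hU ⟨u, hu⟩
  have hun : ‖(u : E2)‖ = 1 := by
    have := u.2
    rwa [mem_sphere_zero_iff_norm] at this
  have hsq : (u : E2) 0 ^ 2 + (u : E2) 1 ^ 2 = 1 := by
    have h2 := EuclideanSpace.norm_sq_eq (u : E2)
    rw [hun, Fin.sum_univ_two, Real.norm_eq_abs, Real.norm_eq_abs, sq_abs, sq_abs] at h2
    linarith
  obtain ⟨α, hα0, hα1⟩ := exists_angle _ _ hsq
  let g : ℝ → Metric.sphere (0 : E2) 1 := fun θ => ⟨vv θ, by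
    rw [mem_sphere_zero_iff_norm]; exact vv_norm θ⟩
  have hg : Continuous g := vv_cont.subtype_mk _
  have hgα : g α = u := by
    apply Subtype.ext
    apply ext_two
    · show vv α 0 = _
      rw [vv_zero, hα0]
    · show vv α 1 = _
      rw [vv_one, hα1]
  have hopen : IsOpen (g ⁻¹' U) := hU.preimage hg
  have hmem : α ∈ g ⁻¹' U := by
    show g α ∈ U
    rw [hgα]; exact hu
  obtain ⟨ε, hε, hball⟩ := Metric.isOpen_iff.1 hopen α hmem
  obtain ⟨θ, hθ, hesc⟩ := esc_core C (p 0, p 1) hx (α - ε) (α + ε) (by linarith)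
  rw [hpp] at hesc
  refine ⟨g θ, ?_, hesc⟩
  apply hball
  rw [Metric.mem_ball, Real.dist_eq, abs_lt]
  constructor <;> linarith [hθ.1, hθ.2]

end Pool.Agent.Results.MP_379466_co.PositiveCurvature
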